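import Pool.Agent.R766.GL.Pot

/-!
The greedy random walk on the ladder: the Lyapunov function of one side.
-/

set_option autoImplicit false

open Finset

namespace R766.GL

/-- Position plus the potentials of the first `r` blocks. -/
noncomputable def Ssum (A : Finset Ed) (x : V) (r : ℕ) : ℝ :=
  15 * ((max x.1 0 : ℤ) : ℝ) + ∑ b ∈ range r, (Phi A x b : ℝ)

/-- The discount factors. -/
noncomputable def rho : ℕ → ℝ
  | 0 => 1
  | r + 1 => rho r * (15 * (2 * r + 1) / (15 * (2 * r + 1) + 29))

/-- The Lyapunov function of the right side. -/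
noncomputable def gp (A : Finset Ed) (x : V) (r : ℕ) : ℝ := rho r * Ssum A x r

/-- The new number of touched blocks. -/
def rnew (r : ℕ) (x : V) : ℕ := if 2 * (r : ℤ) < x.1 then r + 1 else r

/-- At most `r` blocks have been touched on the right. -/
structure Inv (A : Finset Ed) (x : V) (r : ℕ) : Prop where
  hx : x.1 ≤ 2 * r
  hor : ∀ n i, Ed.hor n i ∈ A → n + 1 ≤ 2 * r
  rung : ∀ n, Ed.rung n ∈ A → n ≤ 2 * r

lemma key3 : ∀ d : Fin 3, d = 0 ∨ d = 1 ∨ d = 2 := by decide

lemma move_le (x : V) (d : Fin 3) : (move x d).1 ≤ x.1 + 1 := by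
  rcases key3 d with rfl | rfl | rfl <;> simp [move]
  omega

lemma le_move (x : V) (d : Fin 3) : x.1 - 1 ≤ (move x d).1 := by
  rcases key3 d with rfl | rfl | rfl <;> simp [move]
  omega

lemma inv_step {A : Finset Ed} {x : V} {r : ℕ} (h : Inv A x r) (d : Fin 3) :
    Inv (insert (edge x d) A) (move x d) (rnew r (move x d)) := by
  have hx := h.hx
  have h1 := move_le x d
  have hr : (r : ℤ) ≤ rnew r (move x d) := by
    unfold rnew; split_ifs <;> push_cast <;> omega
  have hr2 : (move x d).1 ≤ 2 * (rnew r (move x d) : ℤ) := by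
    unfold rnew; split_ifs with h2 <;> push_cast <;> omega
  refine ⟨hr2, ?_, ?_⟩
  · intro n i hi
    rw [mem_insert] at hi
    rcases hi with hi | hi
    · rcases key3 d with rfl | rfl | rfl
      · simp only [edge, Ed.hor.injEq] at hi
        omega
      · simp only [edge, Ed.hor.injEq] at hi
        have : (move x 1).1 = x.1 + 1 := rfl
        omega
      · simp [edge] at hi
    · have := h.hor n i hi
      omega
  · intro n hi
    rw [mem_insert] at hi
    rcases hi with hi | hi
    · rcases key3 d with rfl | rfl | rfl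
      · simp [edge] at hi
      · simp [edge] at hi
      · simp only [edge, Ed.rung.injEq] at hi
        omega
    · have := h.rung n hi
      omega

lemma rho_pos (r : ℕ) : 0 < rho r := by
  induction r with
  | zero => simp [rho]
  | succ r ih =>
    unfold rho
    positivity

lemma rho_le_one (r : ℕ) : rho r ≤ 1 := by
  induction r with
  | zero => simp [rho]
  | succ r ih =>
    unfold rho
    have h1 : (15 * (2 * (r : ℝ) + 1) / (15 * (2 * r + 1) + 29)) ≤ 1 := by
      rw [div_le_one (by positivity)]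
      linarith
    have h2 : 0 ≤ (15 * (2 * (r : ℝ) + 1) / (15 * (2 * r + 1) + 29)) := by positivity
    exact mul_le_one₀ ih h2 h1

lemma Ssum_nonneg (A : Finset Ed) (x : V) (r : ℕ) : 0 ≤ Ssum A x r := by
  unfold Ssum
  have : (0 : ℝ) ≤ ((max x.1 0 : ℤ) : ℝ) := by exact_mod_cast le_max_right _ _
  positivity

lemma gp_nonneg (A : Finset Ed) (x : V) (r : ℕ) : 0 ≤ gp A x r :=
  mul_nonneg (rho_pos r).le (Ssum_nonneg A x r)

lemma Ssum_out (A : Finset Ed) (x : V) (r : ℕ) (d : Fin 3) (h : x.1 ≤ 0) :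
    Ssum (insert (edge x d) A) (move x d) r ≤
      Ssum A x r + 15 * (((max (move x d).1 0 : ℤ) : ℝ) - ((max x.1 0 : ℤ) : ℝ)) := by
  unfold Ssum
  have : ∑ b ∈ range r, (Phi (insert (edge x d) A) (move x d) b : ℝ) ≤
      ∑ b ∈ range r, (Phi A x b : ℝ) := by
    refine sum_le_sum fun b _ => ?_
    exact_mod_cast Phi_out A x b d (Or.inl (by omega))
  linarith

lemma Ssum_in (A : Finset Ed) (x : V) (r : ℕ) (h1 : 1 ≤ x.1) (h2 : x.1 ≤ 2 * r) :
    AV A x (fun d => Ssum (insert (edge x d) A) (move x d) r) ≤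
      AV A x (fun _ => 1) * Ssum A x r := by
  obtain ⟨b0, hb0⟩ : ∃ b0 : ℕ, x.1 = 2 * b0 + 1 ∨ x.1 = 2 * b0 + 2 := by
    refine ⟨((x.1 - 1) / 2).toNat, ?_⟩
    omega
  have hb0r : b0 ∈ range r := by
    rw [mem_range]; omega
  have e1 : ∀ d, Ssum (insert (edge x d) A) (move x d) r =
      ((Phi (insert (edge x d) A) (move x d) b0 : ℝ) + 15 * ((move x d).1 - x.1)) +
        (15 * x.1 + ∑ b ∈ (range r).erase b0, (Phi (insert (edge x d) A) (move x d) b : ℝ)) := by
    intro d
    unfold Ssum
    rw [← add_sum_erase _ _ hb0r]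
    have : ((max (move x d).1 0 : ℤ) : ℝ) = (move x d).1 := by
      have := le_move x d
      rw [max_eq_left (by omega)]
    rw [this]
    ring
  have e2 : Ssum A x r = (Phi A x b0 : ℝ) +
      (15 * x.1 + ∑ b ∈ (range r).erase b0, (Phi A x b : ℝ)) := by
    unfold Ssum
    rw [← add_sum_erase _ _ hb0r]
    have : ((max x.1 0 : ℤ) : ℝ) = x.1 := by
      rw [max_eq_left (by omega)]
    rw [this]
    ring
  calc AV A x (fun d => Ssum (insert (edge x d) A) (move x d) r)
      = AV A x (fun d => ((Phi (insert (edge x d) A) (move x d) b0 : ℝ) +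
          15 * ((move x d).1 - x.1)) + (15 * x.1 + ∑ b ∈ (range r).erase b0,
            (Phi (insert (edge x d) A) (move x d) b : ℝ))) := by
        congr 1; funext d; exact e1 d
    _ = AV A x (fun d => ((Phi (insert (edge x d) A) (move x d) b0 : ℝ) +
          15 * ((move x d).1 - x.1))) + AV A x (fun d => (15 * x.1 + ∑ b ∈ (range r).erase b0,
            (Phi (insert (edge x d) A) (move x d) b : ℝ))) := AV_add _ _ _ _
    _ ≤ AV A x (fun _ => 1) * (Phi A x b0 : ℝ) +
        AV A x (fun _ => (15 * x.1 + ∑ b ∈ (range r).erase b0, (Phi A x b : ℝ))) := by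
        refine add_le_add (Phi_in A x b0 hb0) (AV_mono A x fun d _ => ?_)
        refine add_le_add le_rfl (sum_le_sum fun b hb => ?_)
        have hne : b ≠ b0 := ne_of_mem_erase hb
        exact_mod_cast Phi_out A x b d (by omega)
    _ = AV A x (fun _ => 1) * Ssum A x r := by
        rw [AV_const A x (15 * (x.1 : ℝ) + ∑ b ∈ (range r).erase b0, (Phi A x b : ℝ)), e2]; ring

lemma Phi_first (A : Finset Ed) (x : V) (r : ℕ) (h : Inv A x r) (d : Fin 3)
    (hd : (move x d).1 = 2 * r + 1) : Phi (insert (edge x d) A) (move x d) r = 29 := by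
  have hx := h.hx
  have hd1 : d = 1 := by
    rcases key3 d with rfl | rfl | rfl
    · simp [move] at hd; omega
    · rfl
    · simp [move] at hd; omega
  subst hd1
  obtain ⟨n, i⟩ := x
  simp only [move] at hd hx ⊢
  have hn : n = 2 * r := by omega
  subst hn
  have hc : code A r = 0 := by
    apply Nat.eq_of_testBit_eq
    intro j
    by_cases hj : j < 8
    · rw [testBit_code A r hj]
      simp only [Nat.zero_testBit, decide_eq_false_iff_not]
      intro hmem
      interval_cases j <;> simp only [ed] at hmem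
      · have := h.hor _ _ hmem; omega
      · have := h.hor _ _ hmem; omega
      · have := h.hor _ _ hmem; omega
      · have := h.hor _ _ hmem; omega
      · have := h.hor _ _ hmem; omega
      · have := h.hor _ _ hmem; omega
      · have := h.rung _ hmem; omega
      · have := h.rung _ hmem; omega
    · unfold code
      rw [Nat.testBit_ofBits_ge _ _ (by omega)]
      simp
  rcases row i with rfl | rfl
  · have e1 : edge ((2 * r : ℤ), (0 : ZMod 2)) 1 = ed r 0 := rfl
    unfold Phi
    rw [e1, code_insert A r (by norm_num), hc]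
    have e2 : pos r ((2 * r + 1 : ℤ), (0 : ZMod 2)) = 1 := by simp [pos]
    rw [e2]
    exact T_first.1
  · have e1 : edge ((2 * r : ℤ), (1 : ZMod 2)) 1 = ed r 1 := rfl
    unfold Phi
    rw [e1, code_insert A r (by norm_num), hc]
    have e2 : pos r ((2 * r + 1 : ℤ), (1 : ZMod 2)) = 2 := by simp [pos, val_one']
    rw [e2]
    exact T_first.2

lemma gp_step {A : Finset Ed} {x : V} {r : ℕ} (h : Inv A x r) (d : Fin 3) :
    gp (insert (edge x d) A) (move x d) (rnew r (move x d)) ≤
      rho r * Ssum (insert (edge x d) A) (move x d) r := by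
  unfold gp
  by_cases h1 : 2 * (r : ℤ) < (move x d).1
  · have hx := h.hx
    have h2 := move_le x d
    have h3 : (move x d).1 = 2 * r + 1 := by omega
    have e : rnew r (move x d) = r + 1 := by unfold rnew; rw [if_pos h1]
    rw [e]
    set A' := insert (edge x d) A
    set x' := move x d
    have e1 : Ssum A' x' (r + 1) = Ssum A' x' r + 29 := by
      have h5 : Phi A' x' r = 29 := Phi_first A x r h d h3
      unfold Ssum
      rw [sum_range_succ, h5]
      push_cast
      ring
    have e2 : 15 * (2 * (r : ℝ) + 1) ≤ Ssum A' x' r := by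
      unfold Ssum
      have h4 : ((max x'.1 0 : ℤ) : ℝ) = 2 * r + 1 := by
        rw [max_eq_left (by omega), h3]; push_cast; ring
      rw [h4]
      have : (0 : ℝ) ≤ ∑ b ∈ range r, (Phi A' x' b : ℝ) := by positivity
      linarith
    rw [e1]
    have hr := rho_pos r
    show rho r * (15 * (2 * r + 1) / (15 * (2 * r + 1) + 29)) * (Ssum A' x' r + 29) ≤ _
    rw [mul_assoc]
    refine mul_le_mul_of_nonneg_left ?_ hr.le
    rw [div_mul_eq_mul_div, div_le_iff₀ (by positivity)]
    nlinarith
  · have e : rnew r (move x d) = r := by unfold rnew; rw [if_neg h1]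
    rw [e]

lemma gp_in {A : Finset Ed} {x : V} {r : ℕ} (h : Inv A x r) (h1 : 1 ≤ x.1) :
    AV A x (fun d => gp (insert (edge x d) A) (move x d) (rnew r (move x d))) ≤
      AV A x (fun _ => 1) * gp A x r := by
  calc AV A x (fun d => gp (insert (edge x d) A) (move x d) (rnew r (move x d)))
      ≤ AV A x (fun d => rho r * Ssum (insert (edge x d) A) (move x d) r) :=
        AV_mono A x fun d _ => gp_step h d
    _ = rho r * AV A x (fun d => Ssum (insert (edge x d) A) (move x d) r) := AV_mul _ _ _ _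
    _ ≤ rho r * (AV A x (fun _ => 1) * Ssum A x r) :=
        mul_le_mul_of_nonneg_left (Ssum_in A x r h1 h.hx) (rho_pos r).le
    _ = AV A x (fun _ => 1) * gp A x r := by unfold gp; ring

lemma gp_out {A : Finset Ed} {x : V} {r : ℕ} (h : Inv A x r) (h1 : x.1 ≤ 0) (d : Fin 3)
    (h2 : (move x d).1 ≤ 0) :
    gp (insert (edge x d) A) (move x d) (rnew r (move x d)) ≤ gp A x r := by
  refine (gp_step h d).trans ?_
  have h3 := Ssum_out A x r d h1
  rw [max_eq_right h2, max_eq_right h1] at h3
  unfold gp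
  exact mul_le_mul_of_nonneg_left (by simpa using h3) (rho_pos r).le

lemma gp_out' {A : Finset Ed} {x : V} {r : ℕ} (h : Inv A x r) (h1 : x.1 ≤ 0) (d : Fin 3) :
    gp (insert (edge x d) A) (move x d) (rnew r (move x d)) ≤ gp A x r + 15 := by
  refine (gp_step h d).trans ?_
  have h3 := Ssum_out A x r d h1
  have h4 : ((max (move x d).1 0 : ℤ) : ℝ) - ((max x.1 0 : ℤ) : ℝ) ≤ 1 := by
    have := move_le x d
    have h5 : max (move x d).1 0 ≤ max x.1 0 + 1 := by omega
    have h6 : ((max (move x d).1 0 : ℤ) : ℝ) ≤ ((max x.1 0 + 1 : ℤ) : ℝ) := by exact_mod_cast h5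
    push_cast at h6 ⊢
    linarith
  unfold gp
  have h5 : Ssum (insert (edge x d) A) (move x d) r ≤ Ssum A x r + 15 := by linarith
  calc rho r * Ssum (insert (edge x d) A) (move x d) r ≤ rho r * (Ssum A x r + 15) :=
        mul_le_mul_of_nonneg_left h5 (rho_pos r).le
    _ = rho r * Ssum A x r + rho r * 15 := by ring
    _ ≤ rho r * Ssum A x r + 15 := by
        have := rho_le_one r
        linarith

/-- The lower bound for the Lyapunov function when block `m - 1` is touched for the first time. -/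
noncomputable def Lb (m : ℕ) : ℝ := rho m * (15 * (2 * m - 1))

lemma gp_first {A : Finset Ed} {x : V} {r : ℕ} (d : Fin 3)
    (h1 : 2 * (r : ℤ) < (move x d).1) :
    Lb (rnew r (move x d)) ≤ gp (insert (edge x d) A) (move x d) (rnew r (move x d)) := by
  have e : rnew r (move x d) = r + 1 := by unfold rnew; rw [if_pos h1]
  rw [e]
  unfold Lb gp
  refine mul_le_mul_of_nonneg_left ?_ (rho_pos _).le
  unfold Ssum
  have h4 : (2 * (r : ℝ) + 1) ≤ ((max (move x d).1 0 : ℤ) : ℝ) := by
    have : 2 * (r : ℤ) + 1 ≤ max (move x d).1 0 := by omega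
    exact_mod_cast this
  have : (0 : ℝ) ≤ ∑ b ∈ range (r + 1), (Phi (insert (edge x d) A) (move x d) b : ℝ) := by
    positivity
  push_cast at h4 ⊢
  linarith

lemma Lb_pos {m : ℕ} (hm : 1 ≤ m) : 0 < Lb m := by
  unfold Lb
  have h1 : (1 : ℝ) ≤ m := by exact_mod_cast hm
  have := rho_pos m
  have h2 : (0 : ℝ) < 15 * (2 * m - 1) := by linarith
  positivity

lemma Lb_succ {m : ℕ} (hm : 1 ≤ m) : Lb m + Lb m / (60 * (m + 1)) ≤ Lb (m + 1) := by
  have h1 : (1 : ℝ) ≤ m := by exact_mod_cast hm
  have h0 := rho_pos m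
  have h2 : (0 : ℝ) < 60 * (m + 1) := by positivity
  have h3 : (0 : ℝ) < 15 * (2 * m + 1) + 29 := by positivity
  have e1 : Lb (m + 1) = rho m * (15 * (2 * m + 1) * (15 * (2 * m + 1)) /
      (15 * (2 * m + 1) + 29)) := by
    unfold Lb
    show rho m * (15 * (2 * m + 1) / (15 * (2 * m + 1) + 29)) * (15 * (2 * ((m + 1 : ℕ) : ℝ) - 1)) = _
    push_cast
    ring
  have e2 : Lb m + Lb m / (60 * (m + 1)) = rho m * (15 * (2 * m - 1) * (60 * (m + 1) + 1) /
      (60 * (m + 1))) := by
    unfold Lb
    field_simp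
  rw [e1, e2]
  refine mul_le_mul_of_nonneg_left ?_ h0.le
  rw [div_le_div_iff₀ h2 h3]
  nlinarith

lemma Lb_ge (m : ℕ) : Lb 1 + Lb 1 / 60 * ∑ k ∈ range m, 1 / ((k : ℝ) + 2) ≤ Lb (m + 1) := by
  induction m with
  | zero => simp
  | succ m ih =>
    have hp : 0 < Lb 1 := Lb_pos le_rfl
    have h1 := Lb_succ (m := m + 1) (by omega)
    have h2 : Lb 1 ≤ Lb (m + 1) := by
      have : 0 ≤ Lb 1 / 60 * ∑ k ∈ range m, 1 / ((k : ℝ) + 2) := by positivity
      linarith
    rw [sum_range_succ]
    push_cast at h1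
    have h3 : Lb 1 / (60 * ((m : ℝ) + 1 + 1)) ≤ Lb (m + 1) / (60 * ((m : ℝ) + 1 + 1)) :=
      div_le_div_of_nonneg_right h2 (by positivity)
    have h4 : Lb 1 / 60 * (1 / ((m : ℝ) + 2)) = Lb 1 / (60 * ((m : ℝ) + 1 + 1)) := by
      field_simp
      ring
    rw [mul_add, h4]
    linarith

lemma Lb_tendsto : Filter.Tendsto (fun m => Lb (m + 1)) Filter.atTop Filter.atTop := by
  refine Filter.tendsto_atTop_mono Lb_ge ?_
  have hp : 0 < Lb 1 := Lb_pos le_rfl
  have h1 : ¬ Summable (fun k : ℕ => 1 / ((k : ℝ) + 2)) := by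
    intro hs
    have h2 : Summable (fun k : ℕ => 1 / (((k + 2 : ℕ)) : ℝ)) := by
      refine hs.congr fun k => ?_
      push_cast; rfl
    exact Real.not_summable_one_div_natCast ((summable_nat_add_iff 2).1 h2)
  have h2 := (not_summable_iff_tendsto_nat_atTop_of_nonneg
    (fun k : ℕ => by positivity : ∀ k : ℕ, 0 ≤ 1 / ((k : ℝ) + 2))).1 h1
  exact Filter.tendsto_atTop_add_const_left _ _ (h2.const_mul_atTop (by positivity))

end R766.GL
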