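import Pool.Agent.R766.GL.Chain

/-!
The greedy random walk on the ladder: the Lyapunov function and the survival probabilities.
-/

set_option autoImplicit false

open Finset Filter Topology

namespace R766.GL

/-! ### Reflection -/

/-- Reflection of vertices. -/
def refV (x : V) : V := (-x.1, x.2)

/-- Reflection of edges. -/
def refE : Ed → Ed
  | .hor n i => .hor (-n - 1) i
  | .rung n => .rung (-n)

/-- Reflection of directions. -/
def refD : Fin 3 → Fin 3
  | 0 => 1
  | 1 => 0
  | 2 => 2

/-- Reflection of sets of edges. -/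
def refA (A : Finset Ed) : Finset Ed := A.image refE

lemma refE_refE (e : Ed) : refE (refE e) = e := by
  cases e <;> simp [refE]

lemma refE_inj : Function.Injective refE := by
  intro a b h
  rw [← refE_refE a, h, refE_refE]

lemma mem_refA (A : Finset Ed) (e : Ed) : refE e ∈ refA A ↔ e ∈ A := by
  unfold refA
  rw [mem_image]
  constructor
  · rintro ⟨a, ha, hae⟩
    rw [← refE_inj hae]; exact ha
  · intro h
    exact ⟨e, h, rfl⟩

lemma mem_refA' (A : Finset Ed) (e : Ed) : e ∈ refA A ↔ refE e ∈ A := by
  rw [← mem_refA A (refE e), refE_refE]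

lemma refA_insert (A : Finset Ed) (e : Ed) : refA (insert e A) = insert (refE e) (refA A) := by
  unfold refA; rw [image_insert]

lemma edge_ref (x : V) (d : Fin 3) : edge (refV x) (refD d) = refE (edge x d) := by
  rcases key3 d with rfl | rfl | rfl
  · simp [edge, refV, refD, refE]
  · simp [edge, refV, refD, refE]
  · simp [edge, refV, refD, refE]

lemma move_ref (x : V) (d : Fin 3) : move (refV x) (refD d) = refV (move x d) := by
  rcases key3 d with rfl | rfl | rfl
  · simp [move, refV, refD]; ring
  · simp [move, refV, refD]; ring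
  · simp [move, refV, refD]

lemma refD_refD (d : Fin 3) : refD (refD d) = d := by
  rcases key3 d with rfl | rfl | rfl <;> rfl

lemma ok_ref (A : Finset Ed) (x : V) (d : Fin 3) :
    ok (refA A) (refV x) (refD d) = ok A x d := by
  unfold ok
  have h0 : (edge (refV x) 0 ∈ refA A) ↔ (edge x 1 ∈ A) := by
    rw [show (0 : Fin 3) = refD 1 from rfl, edge_ref, mem_refA]
  have h1 : (edge (refV x) 1 ∈ refA A) ↔ (edge x 0 ∈ A) := by
    rw [show (1 : Fin 3) = refD 0 from rfl, edge_ref, mem_refA]
  have h2 : (edge (refV x) 2 ∈ refA A) ↔ (edge x 2 ∈ A) := by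
    rw [show (2 : Fin 3) = refD 2 from rfl, edge_ref, mem_refA]
    rfl
  rw [edge_ref]
  simp only [mem_refA, h0, h1, h2]
  rw [Bool.and_comm (decide (edge x 1 ∈ A))]

lemma AV_ref (A : Finset Ed) (x : V) (F : Fin 3 → ℝ) :
    AV A x F = AV (refA A) (refV x) (fun d => F (refD d)) := by
  unfold AV
  simp only [Fin.sum_univ_three]
  have h0 := ok_ref A x 0
  have h1 := ok_ref A x 1
  have h2 := ok_ref A x 2
  simp only [refD] at h0 h1 h2 ⊢
  rw [h0, h1, h2]
  ring

/-! ### States -/

/-- The states: visited edges, position, numbers of touched blocks on both sides. -/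
structure St where
  A : Finset Ed
  x : V
  rp : ℕ
  rm : ℕ

/-- The state after a step. -/
def upd (s : St) (d : Fin 3) : St :=
  ⟨insert (edge s.x d) s.A, move s.x d, rnew s.rp (move s.x d), rnew s.rm (refV (move s.x d))⟩

/-- The invariant. -/
def Good (s : St) : Prop := Inv s.A s.x s.rp ∧ Inv (refA s.A) (refV s.x) s.rm

lemma good_upd {s : St} (h : Good s) (d : Fin 3) : Good (upd s d) := by
  refine ⟨inv_step h.1 d, ?_⟩
  have := inv_step h.2 (refD d)
  rw [edge_ref, move_ref, ← refA_insert] at this
  exact this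

/-- The number of unvisited edges at the vertex opposite to the target. -/
noncomputable def unv (A : Finset Ed) (w : V) : ℝ := ∑ d : Fin 3, if edge w d ∈ A then 0 else 1

lemma unv_nonneg (A : Finset Ed) (w : V) : 0 ≤ unv A w := by
  unfold unv
  refine sum_nonneg fun d _ => ?_
  split_ifs <;> norm_num

lemma unv_insert (A : Finset Ed) (w : V) (e : Ed) : unv (insert e A) w ≤ unv A w := by
  unfold unv
  refine sum_le_sum fun d _ => ?_
  by_cases h : edge w d ∈ A
  · rw [if_pos h, if_pos (mem_insert_of_mem h)]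
  · rw [if_neg h]; split_ifs <;> norm_num

lemma unv_insert_lt (A : Finset Ed) (w : V) (d : Fin 3) (h : edge w d ∉ A) :
    unv (insert (edge w d) A) w ≤ unv A w - 1 := by
  unfold unv
  rw [← add_sum_erase _ _ (mem_univ d), ← add_sum_erase (f := fun d => if edge w d ∈ A then
    (0 : ℝ) else 1) _ (mem_univ d)]
  simp only [mem_insert_self, if_true, h, if_false]
  have : ∑ e ∈ univ.erase d, (if edge w e ∈ insert (edge w d) A then (0 : ℝ) else 1) ≤
      ∑ e ∈ univ.erase d, (if edge w e ∈ A then (0 : ℝ) else 1) := by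
    refine sum_le_sum fun e _ => ?_
    by_cases h : edge w e ∈ A
    · rw [if_pos h, if_pos (mem_insert_of_mem h)]
    · rw [if_neg h]; split_ifs <;> norm_num
  linarith

/-- The Lyapunov function. -/
noncomputable def f (i : ZMod 2) (s : St) : ℝ :=
  gp s.A s.x s.rp + gp (refA s.A) (refV s.x) s.rm + 30 + 15 * unv s.A (0, i + 1)

lemma f_ge (i : ZMod 2) (s : St) : 30 ≤ f i s := by
  unfold f
  have h1 := gp_nonneg s.A s.x s.rp
  have h2 := gp_nonneg (refA s.A) (refV s.x) s.rm
  have h3 := unv_nonneg s.A (0, i + 1)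
  linarith

lemma gm_eq (s : St) (d : Fin 3) : gp (refA (upd s d).A) (refV (upd s d).x) (upd s d).rm =
    gp (insert (edge (refV s.x) (refD d)) (refA s.A)) (move (refV s.x) (refD d))
      (rnew s.rm (move (refV s.x) (refD d))) := by
  rw [edge_ref, move_ref, ← refA_insert]
  rfl

/-- The average of `F` over the next step, killed at the target. -/
noncomputable def KF (i : ZMod 2) (F : St → ℝ) (s : St) (d : Fin 3) : ℝ :=
  if (upd s d).x = (0, i) then 0 else F (upd s d)

lemma add_one_add_one (i : ZMod 2) : i + 1 + 1 = i := by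
  revert i; decide

lemma row_ne (i j : ZMod 2) (h : j ≠ i) : j = i + 1 := by
  revert i j; decide

lemma f_super (i : ZMod 2) {s : St} (h : Good s) (hx : s.x ≠ (0, i)) :
    AV s.A s.x (KF i (f i) s) ≤ AV s.A s.x (fun _ => 1) * f i s := by
  have hunv : ∀ d, unv (upd s d).A (0, i + 1) ≤ unv s.A (0, i + 1) := fun d =>
    unv_insert _ _ _
  have hK : ∀ d, KF i (f i) s d ≤ f i (upd s d) := by
    intro d
    unfold KF
    split_ifs
    · linarith [f_ge i (upd s d)]
    · exact le_rfl
  rcases lt_trichotomy s.x.1 0 with hneg | hzero | hpos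
  · -- left side
    have h1 : AV s.A s.x (fun d => gp (refA (upd s d).A) (refV (upd s d).x) (upd s d).rm) ≤
        AV s.A s.x (fun _ => 1) * gp (refA s.A) (refV s.x) s.rm := by
      have h2 := gp_in h.2 (show 1 ≤ (refV s.x).1 by unfold refV; simp; omega)
      rw [AV_ref s.A s.x (fun d => gp (refA (upd s d).A) (refV (upd s d).x) (upd s d).rm),
        AV_ref s.A s.x (fun _ => 1)]
      refine le_trans (le_of_eq ?_) h2
      congr 1
      funext d
      rw [gm_eq, refD_refD]
    calc AV s.A s.x (KF i (f i) s)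
        ≤ AV s.A s.x (fun d => gp (refA (upd s d).A) (refV (upd s d).x) (upd s d).rm +
            (gp s.A s.x s.rp + 30 + 15 * unv s.A (0, i + 1))) := by
          refine AV_mono _ _ fun d _ => (hK d).trans ?_
          unfold f
          have h3 := gp_out h.1 hneg.le d (by have := move_le s.x d; omega)
          have h4 := hunv d
          have h5 : gp (upd s d).A (upd s d).x (upd s d).rp ≤ gp s.A s.x s.rp := h3
          linarith
      _ = AV s.A s.x (fun d => gp (refA (upd s d).A) (refV (upd s d).x) (upd s d).rm) +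
            (gp s.A s.x s.rp + 30 + 15 * unv s.A (0, i + 1)) * AV s.A s.x (fun _ => 1) := by
          rw [AV_add, AV_const s.A s.x (gp s.A s.x s.rp + 30 + 15 * unv s.A (0, i + 1))]
      _ ≤ AV s.A s.x (fun _ => 1) * f i s := by
          unfold f
          nlinarith
  · -- the column of the target
    have hxw : s.x = (0, i + 1) := by
      have : s.x.2 = i + 1 := row_ne _ _ fun h1 => hx (Prod.ext hzero h1)
      exact Prod.ext hzero this
    have hg : ∀ d, gp (upd s d).A (upd s d).x (upd s d).rp +
        gp (refA (upd s d).A) (refV (upd s d).x) (upd s d).rm ≤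
        gp s.A s.x s.rp + gp (refA s.A) (refV s.x) s.rm + 15 := by
      intro d
      have h1 : gp (upd s d).A (upd s d).x (upd s d).rp ≤ gp s.A s.x s.rp + 15 :=
        gp_out' h.1 (by omega) d
      have h2 : gp (refA (upd s d).A) (refV (upd s d).x) (upd s d).rm ≤
          gp (refA s.A) (refV s.x) s.rm + 15 := by
        rw [gm_eq]
        exact gp_out' h.2 (by unfold refV; simp; omega) _
      rcases le_total (move s.x d).1 0 with h3 | h3
      · have h4 : gp (upd s d).A (upd s d).x (upd s d).rp ≤ gp s.A s.x s.rp :=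
          gp_out h.1 (by omega) d h3
        linarith
      · have h4 : gp (refA (upd s d).A) (refV (upd s d).x) (upd s d).rm ≤
            gp (refA s.A) (refV s.x) s.rm := by
          rw [gm_eq]
          refine gp_out h.2 (by unfold refV; simp; omega) _ ?_
          rw [move_ref]
          unfold refV
          simp only
          omega
        linarith
    by_cases hall : ∀ d, edge s.x d ∈ s.A
    · have hok : ∀ d, ok s.A s.x d = true := by
        intro d
        simp [ok, hall]
      have e2 : KF i (f i) s 2 = 0 := by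
        unfold KF upd
        rw [if_pos]
        rw [hxw]
        simp [move, add_one_add_one]
      have e01 : ∀ d, KF i (f i) s d ≤ f i s + 15 := by
        intro d
        refine (hK d).trans ?_
        unfold f
        have := hg d
        have := hunv d
        linarith
      have h30 := f_ge i s
      unfold AV
      simp only [Fin.sum_univ_three, hok, if_true, e2]
      have := e01 0
      have := e01 1
      linarith
    · obtain ⟨d0, hd0⟩ := not_forall.1 hall
      have hle : ∀ d, ok s.A s.x d = true → KF i (f i) s d ≤ f i s := by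
        intro d hd
        have hd' : edge s.x d ∉ s.A := by
          intro hmem
          apply hd0
          simp only [ok, hmem, decide_true, Bool.not_true, Bool.false_or, Bool.and_eq_true,
            decide_eq_true_eq] at hd
          rcases key3 d0 with rfl | rfl | rfl
          · exact hd.1.1
          · exact hd.1.2
          · exact hd.2
        refine (hK d).trans ?_
        unfold f
        have h1 := hg d
        have h2 : unv (upd s d).A (0, i + 1) ≤ unv s.A (0, i + 1) - 1 := by
          rw [← hxw]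
          exact unv_insert_lt _ _ _ hd'
        linarith
      calc AV s.A s.x (KF i (f i) s) ≤ AV s.A s.x (fun _ => f i s) := AV_mono _ _ hle
        _ = AV s.A s.x (fun _ => 1) * f i s := by rw [AV_const]; ring
  · -- right side
    have h1 := gp_in h.1 (show 1 ≤ s.x.1 by omega)
    calc AV s.A s.x (KF i (f i) s)
        ≤ AV s.A s.x (fun d => gp (insert (edge s.x d) s.A) (move s.x d)
            (rnew s.rp (move s.x d)) +
            (gp (refA s.A) (refV s.x) s.rm + 30 + 15 * unv s.A (0, i + 1))) := by
          refine AV_mono _ _ fun d _ => (hK d).trans ?_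
          unfold f
          have h3 : gp (refA (upd s d).A) (refV (upd s d).x) (upd s d).rm ≤
              gp (refA s.A) (refV s.x) s.rm := by
            rw [gm_eq]
            refine gp_out h.2 (by unfold refV; simp; omega) _ ?_
            rw [move_ref]
            have := le_move s.x d
            unfold refV
            simp only
            omega
          have h4 := hunv d
          show gp (insert (edge s.x d) s.A) (move s.x d) (rnew s.rp (move s.x d)) + _ + _ + _ ≤ _
          linarith
      _ = AV s.A s.x (fun d => gp (insert (edge s.x d) s.A) (move s.x d)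
            (rnew s.rp (move s.x d))) +
            (gp (refA s.A) (refV s.x) s.rm + 30 + 15 * unv s.A (0, i + 1)) *
              AV s.A s.x (fun _ => 1) := by
          rw [AV_add, AV_const s.A s.x (gp (refA s.A) (refV s.x) s.rm + 30 +
            15 * unv s.A (0, i + 1))]
      _ ≤ AV s.A s.x (fun _ => 1) * f i s := by
          unfold f
          nlinarith

/-! ### Exit from finite regions -/

/-- The edges near the columns `-2m, ..., 2m`. -/
noncomputable def win (m : ℕ) : Finset Ed :=
  ((Icc (-(2 * m + 1 : ℤ)) (2 * m + 1)) ×ˢ (univ : Finset (ZMod 2))).image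
    (fun p => Ed.hor p.1 p.2) ∪ (Icc (-(2 * m + 1 : ℤ)) (2 * m + 1)).image Ed.rung

lemma edge_mem_win (m : ℕ) (x : V) (h1 : -(2 * m : ℤ) ≤ x.1) (h2 : x.1 ≤ 2 * m) (d : Fin 3) :
    edge x d ∈ win m := by
  unfold win
  rw [mem_union]
  rcases key3 d with rfl | rfl | rfl
  · left
    rw [mem_image]
    refine ⟨(x.1 - 1, x.2), ?_, rfl⟩
    simp only [mem_product, mem_Icc, mem_univ, and_true]
    omega
  · left
    rw [mem_image]
    refine ⟨(x.1, x.2), ?_, rfl⟩
    simp only [mem_product, mem_Icc, mem_univ, and_true]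
    omega
  · right
    rw [mem_image]
    refine ⟨x.1, ?_, rfl⟩
    simp only [mem_Icc]
    omega

/-- The function that bounds the exit times. -/
noncomputable def H (m : ℕ) (s : St) : ℝ :=
  (4 * m + 2) * ((win m \ s.A).card : ℝ) + ((2 * m : ℝ) ^ 2 - (s.x.1 : ℝ) ^ 2)

lemma H_nonneg (m : ℕ) (s : St) (h1 : -(2 * m : ℤ) ≤ s.x.1) (h2 : s.x.1 ≤ 2 * m) :
    0 ≤ H m s := by
  unfold H
  have h3 : (-(2 * m : ℝ)) ≤ s.x.1 := by exact_mod_cast h1
  have h4 : (s.x.1 : ℝ) ≤ 2 * m := by exact_mod_cast h2
  have h5 : (s.x.1 : ℝ) ^ 2 ≤ (2 * m : ℝ) ^ 2 := by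
    rw [sq_le_sq]
    rw [abs_of_nonneg (by positivity : (0 : ℝ) ≤ 2 * m)]
    exact abs_le.2 ⟨h3, h4⟩
  have h6 : (0 : ℝ) ≤ (4 * m + 2) * ((win m \ s.A).card : ℝ) := by positivity
  linarith

lemma H_step (m : ℕ) (s : St) (h1 : -(2 * m : ℤ) ≤ s.x.1) (h2 : s.x.1 ≤ 2 * m) :
    AV s.A s.x (fun d => H m (upd s d)) ≤ AV s.A s.x (fun _ => 1) * (H m s - 1 / 2) := by
  have h3 : (-(2 * m : ℝ)) ≤ s.x.1 := by exact_mod_cast h1
  have h4 : (s.x.1 : ℝ) ≤ 2 * m := by exact_mod_cast h2
  by_cases hall : ∀ d, edge s.x d ∈ s.A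
  · have hok : ∀ d, ok s.A s.x d = true := by
      intro d
      simp [ok, hall]
    have hH : ∀ d, H m (upd s d) = (4 * m + 2) * ((win m \ s.A).card : ℝ) +
        ((2 * m : ℝ) ^ 2 - ((move s.x d).1 : ℝ) ^ 2) := by
      intro d
      unfold H upd
      simp only [insert_eq_of_mem (hall d)]
    unfold AV
    simp only [Fin.sum_univ_three, hok, if_true, hH]
    unfold H
    simp only [move]
    push_cast
    nlinarith
  · obtain ⟨d0, hd0⟩ := not_forall.1 hall
    have hle : ∀ d, ok s.A s.x d = true → H m (upd s d) ≤ H m s - 1 / 2 := by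
      intro d hd
      have hd' : edge s.x d ∉ s.A := by
        intro hmem
        apply hd0
        simp only [ok, hmem, decide_true, Bool.not_true, Bool.false_or, Bool.and_eq_true,
          decide_eq_true_eq] at hd
        rcases key3 d0 with rfl | rfl | rfl
        · exact hd.1.1
        · exact hd.1.2
        · exact hd.2
      have hcard : ((win m \ (upd s d).A).card : ℝ) = ((win m \ s.A).card : ℝ) - 1 := by
        have e1 : win m \ (upd s d).A = (win m \ s.A).erase (edge s.x d) := by
          ext e
          simp only [upd, Finset.mem_sdiff, Finset.mem_insert, Finset.mem_erase, not_or]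
          tauto
        rw [e1, card_erase_of_mem (Finset.mem_sdiff.2 ⟨edge_mem_win m s.x h1 h2 d, hd'⟩)]
        have : 1 ≤ (win m \ s.A).card :=
          card_pos.2 ⟨_, Finset.mem_sdiff.2 ⟨edge_mem_win m s.x h1 h2 d, hd'⟩⟩
        push_cast [Nat.cast_sub this]
        rfl
      unfold H
      rw [hcard]
      have hm : (0 : ℝ) ≤ m := Nat.cast_nonneg m
      have h5 : (s.x.1 : ℝ) ^ 2 - ((upd s d).x.1 : ℝ) ^ 2 ≤ 4 * m + 1 := by
        show (s.x.1 : ℝ) ^ 2 - ((move s.x d).1 : ℝ) ^ 2 ≤ 4 * m + 1
        rcases key3 d with rfl | rfl | rfl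
        · simp only [move]; push_cast; nlinarith
        · simp only [move]; push_cast; nlinarith
        · simp only [move]; nlinarith
      nlinarith
    calc AV s.A s.x (fun d => H m (upd s d)) ≤ AV s.A s.x (fun _ => H m s - 1 / 2) :=
          AV_mono _ _ hle
      _ = AV s.A s.x (fun _ => 1) * (H m s - 1 / 2) := by rw [AV_const]; ring

/-! ### Survival probabilities -/

/-- The probability that the walk started in the state `s` does not hit the target in the steps
`1, ..., n`. -/
noncomputable def u (i : ZMod 2) : ℕ → St → ℝ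
  | 0 => fun _ => 1
  | n + 1 => fun s => AV s.A s.x (KF i (u i n) s) / AV s.A s.x (fun _ => 1)

lemma u_nonneg (i : ZMod 2) (n : ℕ) : ∀ s, 0 ≤ u i n s := by
  induction n with
  | zero => intro s; simp [u]
  | succ n ih =>
    intro s
    unfold u
    refine div_nonneg ?_ (AV_one_pos _ _).le
    unfold AV
    refine sum_nonneg fun d _ => ?_
    unfold KF
    split_ifs
    · exact le_rfl
    · exact ih _
    · exact le_rfl

lemma u_le_one (i : ZMod 2) (n : ℕ) : ∀ s, u i n s ≤ 1 := by
  induction n with
  | zero => intro s; simp [u]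
  | succ n ih =>
    intro s
    unfold u
    rw [div_le_one (AV_one_pos _ _)]
    refine AV_mono _ _ fun d _ => ?_
    unfold KF
    split_ifs
    · exact zero_le_one
    · exact ih _

lemma u_succ_le (i : ZMod 2) (n : ℕ) : ∀ s, u i (n + 1) s ≤ u i n s := by
  induction n with
  | zero => intro s; exact u_le_one i 1 s
  | succ n ih =>
    intro s
    show AV s.A s.x (KF i (u i (n + 1)) s) / AV s.A s.x (fun _ => 1) ≤
      AV s.A s.x (KF i (u i n) s) / AV s.A s.x (fun _ => 1)
    refine div_le_div_of_nonneg_right (AV_mono _ _ fun d _ => ?_) (AV_one_pos _ _).le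
    unfold KF
    split_ifs
    · exact le_rfl
    · exact ih _

lemma u_anti (i : ZMod 2) (s : St) : Antitone (fun n => u i n s) :=
  antitone_nat_of_succ_le fun n => u_succ_le i n s

/-- The sum of the first survival probabilities. -/
noncomputable def U (i : ZMod 2) (n : ℕ) (s : St) : ℝ := ∑ k ∈ range n, u i k s

lemma U_succ (i : ZMod 2) (n : ℕ) (s : St) :
    AV s.A s.x (fun _ => 1) * U i (n + 1) s =
      AV s.A s.x (fun _ => 1) + AV s.A s.x (KF i (U i n) s) := by
  have hp := AV_one_pos s.A s.x
  unfold U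
  rw [sum_range_succ']
  have e1 : KF i (fun s => ∑ k ∈ range n, u i k s) s = fun d => ∑ k ∈ range n, KF i (u i k) s d := by
    funext d
    unfold KF
    split_ifs
    · simp
    · rfl
  rw [e1, AV_sum]
  have e2 : ∀ k, u i (k + 1) s = AV s.A s.x (KF i (u i k) s) / AV s.A s.x (fun _ => 1) :=
    fun k => rfl
  have e3 : u i 0 s = 1 := rfl
  rw [e3, mul_add, mul_one, add_comm, mul_sum]
  congr 1
  refine sum_congr rfl fun k _ => ?_
  rw [e2]
  field_simp

lemma U_le (i : ZMod 2) (n : ℕ) (s : St) : U i n s ≤ n := by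
  unfold U
  calc ∑ k ∈ range n, u i k s ≤ ∑ k ∈ range n, (1 : ℝ) := sum_le_sum fun k _ => u_le_one i k s
    _ = n := by simp

lemma U_ge (i : ZMod 2) (n : ℕ) (s : St) : n * u i n s ≤ U i n s := by
  unfold U
  calc (n : ℝ) * u i n s = ∑ k ∈ range n, u i n s := by simp
    _ ≤ ∑ k ∈ range n, u i k s :=
        sum_le_sum fun k hk => u_anti i s (mem_range.1 hk).le

lemma rnew_lt {r m : ℕ} (x : V) (hr : r < m) (h : ¬ rnew r x < m) :
    rnew r x = m ∧ 2 * (r : ℤ) < x.1 := by
  unfold rnew at h ⊢
  split_ifs at h ⊢ with h1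
  · exact ⟨by omega, h1⟩
  · omega

lemma f_first (i : ZMod 2) {s : St} {m : ℕ} (d : Fin 3) (h1 : s.rp < m)
    (h2 : s.rm < m) (h3 : ¬ ((upd s d).rp < m ∧ (upd s d).rm < m)) : Lb m ≤ f i (upd s d) := by
  have hu := unv_nonneg (upd s d).A (0, i + 1)
  by_cases h4 : (upd s d).rp < m
  · have h5 : ¬ (upd s d).rm < m := fun h => h3 ⟨h4, h⟩
    obtain ⟨h6, h7⟩ := rnew_lt _ h2 h5
    have h8 := gp_first (A := refA s.A) (x := refV s.x) (r := s.rm) (refD d)
      (by rw [move_ref]; exact h7)
    rw [← gm_eq, move_ref, h6] at h8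
    have h9 := gp_nonneg (upd s d).A (upd s d).x (upd s d).rp
    unfold f
    linarith
  · obtain ⟨h6, h7⟩ := rnew_lt _ h1 h4
    have h8 : Lb (rnew s.rp (move s.x d)) ≤ gp (upd s d).A (upd s d).x (upd s d).rp :=
      gp_first (A := s.A) (x := s.x) (r := s.rp) d h7
    rw [h6] at h8
    have h9 := gp_nonneg (refA (upd s d).A) (refV (upd s d).x) (upd s d).rm
    unfold f
    linarith

lemma claim (i : ZMod 2) (m : ℕ) (n : ℕ) : ∀ s : St, Good s → s.x ≠ (0, i) → s.rp < m →
    s.rm < m → (1 / 2) * U i n s ≤ H m s + ((1 / 2) * n / Lb m) * f i s := by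
  induction n with
  | zero =>
    intro s hg _ h1 h2
    have h3 := hg.1.hx
    have h4 := hg.2.hx
    unfold refV at h4
    simp only at h4
    have := H_nonneg m s (by omega) (by omega)
    simp [U]
    exact this
  | succ n ih =>
    intro s hg hx h1 h2
    have h3 := hg.1.hx
    have h4 := hg.2.hx
    unfold refV at h4
    simp only at h4
    have hm : 1 ≤ m := by omega
    have hL := Lb_pos hm
    have hp := AV_one_pos s.A s.x
    have hKle : ∀ d, (1 / 2) * KF i (U i n) s d ≤ H m (upd s d) +
        ((1 / 2) * n / Lb m) * KF i (f i) s d := by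
      intro d
      have hb1 := move_le s.x d
      have hb2 := le_move s.x d
      have hH : 0 ≤ H m (upd s d) := by
        refine H_nonneg m _ ?_ ?_
        · show -(2 * m : ℤ) ≤ (move s.x d).1
          omega
        · show (move s.x d).1 ≤ 2 * m
          omega
      unfold KF
      by_cases h5 : (upd s d).x = (0, i)
      · rw [if_pos h5, if_pos h5]
        simpa using hH
      · rw [if_neg h5, if_neg h5]
        by_cases h6 : (upd s d).rp < m ∧ (upd s d).rm < m
        · exact ih _ (good_upd hg d) h5 h6.1 h6.2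
        · have h7 := f_first i d h1 h2 h6
          have h8 := U_le i n (upd s d)
          have h9 : (1 / 2) * (n : ℝ) ≤ ((1 / 2) * n / Lb m) * f i (upd s d) := by
            calc (1 / 2) * (n : ℝ) = ((1 / 2) * n / Lb m) * Lb m := by field_simp
              _ ≤ ((1 / 2) * n / Lb m) * f i (upd s d) :=
                mul_le_mul_of_nonneg_left h7 (by positivity)
          linarith
    have h5 : (1 / 2) * AV s.A s.x (KF i (U i n) s) ≤
        AV s.A s.x (fun d => H m (upd s d)) + ((1 / 2) * n / Lb m) *
          AV s.A s.x (KF i (f i) s) := by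
      rw [← AV_mul, ← AV_mul, ← AV_add]
      exact AV_mono _ _ fun d _ => hKle d
    have h6 := H_step m s (by omega) (by omega)
    have h7 := f_super i hg hx
    have h8 : ((1 / 2) * n / Lb m) * AV s.A s.x (KF i (f i) s) ≤
        ((1 / 2) * n / Lb m) * (AV s.A s.x (fun _ => 1) * f i s) :=
      mul_le_mul_of_nonneg_left h7 (by positivity)
    have h9 := U_succ i n s
    have h10 : AV s.A s.x (fun _ => 1) * ((1 / 2) * U i (n + 1) s) ≤
        AV s.A s.x (fun _ => 1) * (H m s + ((1 / 2) * n / Lb m) * f i s) := by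
      calc AV s.A s.x (fun _ => 1) * ((1 / 2) * U i (n + 1) s)
          = (1 / 2) * (AV s.A s.x (fun _ => 1) * U i (n + 1) s) := by ring
        _ = (1 / 2) * (AV s.A s.x (fun _ => 1) + AV s.A s.x (KF i (U i n) s)) := by rw [h9]
        _ ≤ (1 / 2) * AV s.A s.x (fun _ => 1) + (AV s.A s.x (fun _ => 1) * (H m s - 1 / 2) +
            ((1 / 2) * n / Lb m) * (AV s.A s.x (fun _ => 1) * f i s)) := by linarith
        _ = AV s.A s.x (fun _ => 1) * (H m s + ((1 / 2) * n / Lb m) * f i s) := by ring
    have h11 := le_of_mul_le_mul_left h10 hp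
    have h12 : ((1 / 2) * (n : ℝ) / Lb m) * f i s ≤
        ((1 / 2) * ((n + 1 : ℕ) : ℝ) / Lb m) * f i s := by
      refine mul_le_mul_of_nonneg_right ?_ (by linarith [f_ge i s])
      refine div_le_div_of_nonneg_right ?_ hL.le
      push_cast
      linarith
    linarith

lemma u_bound (i : ZMod 2) {s : St} (hg : Good s) (hx : s.x ≠ (0, i)) {m : ℕ} (h1 : s.rp < m)
    (h2 : s.rm < m) {n : ℕ} (hn : 1 ≤ n) : u i n s ≤ 2 * H m s / n + f i s / Lb m := by
  have h3 := claim i m n s hg hx h1 h2
  have h4 := U_ge i n s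
  have hn' : (0 : ℝ) < n := by exact_mod_cast hn
  have hL := Lb_pos (show 1 ≤ m by omega)
  have h5 : (n : ℝ) * u i n s ≤ 2 * H m s + n * (f i s / Lb m) := by
    have : (1 / 2 * (n : ℝ) / Lb m) * f i s = (1 / 2) * (n * (f i s / Lb m)) := by ring
    rw [this] at h3
    linarith
  have h6 : u i n s ≤ (2 * H m s + n * (f i s / Lb m)) / n := by
    rw [le_div_iff₀ hn']
    linarith
  refine h6.trans (le_of_eq ?_)
  field_simp

theorem u_tendsto (i : ZMod 2) {s : St} (hg : Good s) (hx : s.x ≠ (0, i)) :
    Tendsto (fun n => u i n s) atTop (𝓝 0) := by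
  rw [Metric.tendsto_atTop]
  intro ε hε
  have h1 : Tendsto (fun m => f i s / Lb (m + 1)) atTop (𝓝 0) :=
    Lb_tendsto.const_div_atTop _
  obtain ⟨M, hM⟩ := (Metric.tendsto_atTop.1 h1) (ε / 2) (half_pos hε)
  set m := max M (max s.rp s.rm) with hmdef
  have hm1 : s.rp < m + 1 := by omega
  have hm2 : s.rm < m + 1 := by omega
  have h2 : f i s / Lb (m + 1) < ε / 2 := by
    have := hM m (le_max_left _ _)
    rw [Real.dist_eq, sub_zero] at this
    exact lt_of_abs_lt this
  have h3 : Tendsto (fun n : ℕ => 2 * H (m + 1) s / (n : ℝ)) atTop (𝓝 0) :=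
    tendsto_const_div_atTop_nhds_zero_nat _
  obtain ⟨N, hN⟩ := (Metric.tendsto_atTop.1 h3) (ε / 2) (half_pos hε)
  refine ⟨max N 1, fun n hn => ?_⟩
  have h4 : 2 * H (m + 1) s / (n : ℝ) < ε / 2 := by
    have := hN n (le_trans (le_max_left _ _) hn)
    rw [Real.dist_eq, sub_zero] at this
    exact lt_of_abs_lt this
  have h5 := u_bound i hg hx hm1 hm2 (le_trans (le_max_right _ _) hn)
  rw [Real.dist_eq, sub_zero, abs_of_nonneg (u_nonneg i n s)]
  linarith

end R766.GL
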