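import Pool.Agent.R766.GL.Table

/-!
The greedy random walk on the ladder: local potentials.
-/

set_option autoImplicit false

open Finset

namespace R766.GL

/-- The vertices of the ladder. -/
abbrev V := ℤ × ZMod 2

/-- The edges of the ladder: `hor n i` joins `(n, i)` to `(n + 1, i)`, and `rung n` joins `(n, 0)`
to `(n, 1)`. -/
inductive Ed where
  | hor (n : ℤ) (i : ZMod 2)
  | rung (n : ℤ)
  deriving DecidableEq

/-- The neighbour in direction `d` (left, right, across). -/
def move (x : V) : Fin 3 → V
  | 0 => (x.1 - 1, x.2)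
  | 1 => (x.1 + 1, x.2)
  | 2 => (x.1, x.2 + 1)

/-- The edge in direction `d`. -/
def edge (x : V) : Fin 3 → Ed
  | 0 => .hor (x.1 - 1) x.2
  | 1 => .hor x.1 x.2
  | 2 => .rung x.1

/-- The direction `d` is allowed for the greedy random walk at `x` when the set of visited edges
is `A`. -/
def ok (A : Finset Ed) (x : V) (d : Fin 3) : Bool :=
  !(decide (edge x d ∈ A)) ||
    (decide (edge x 0 ∈ A) && decide (edge x 1 ∈ A) && decide (edge x 2 ∈ A))

/-- The sum over the allowed directions. -/
noncomputable def AV (A : Finset Ed) (x : V) (F : Fin 3 → ℝ) : ℝ :=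
  ∑ d, if ok A x d then F d else 0

lemma AV_mono (A : Finset Ed) (x : V) {F G : Fin 3 → ℝ} (h : ∀ d, ok A x d → F d ≤ G d) :
    AV A x F ≤ AV A x G := by
  unfold AV
  refine sum_le_sum fun d _ => ?_
  split_ifs with h1
  · exact h d h1
  · exact le_rfl

lemma AV_add (A : Finset Ed) (x : V) (F G : Fin 3 → ℝ) :
    AV A x (fun d => F d + G d) = AV A x F + AV A x G := by
  unfold AV
  rw [← sum_add_distrib]
  refine sum_congr rfl fun d _ => ?_
  split_ifs <;> simp

lemma AV_mul (A : Finset Ed) (x : V) (c : ℝ) (F : Fin 3 → ℝ) :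
    AV A x (fun d => c * F d) = c * AV A x F := by
  unfold AV
  rw [mul_sum]
  refine sum_congr rfl fun d _ => ?_
  split_ifs <;> simp

lemma AV_sum {ι : Type*} (A : Finset Ed) (x : V) (s : Finset ι) (F : ι → Fin 3 → ℝ) :
    AV A x (fun d => ∑ i ∈ s, F i d) = ∑ i ∈ s, AV A x (F i) := by
  unfold AV
  rw [sum_comm]
  refine sum_congr rfl fun d _ => ?_
  split_ifs <;> simp

lemma AV_const (A : Finset Ed) (x : V) (c : ℝ) :
    AV A x (fun _ => c) = c * AV A x (fun _ => 1) := by
  have := AV_mul A x c (fun _ => 1)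
  simpa using this

lemma ok_exists (A : Finset Ed) (x : V) : ∃ d, ok A x d = true := by
  by_cases h0 : edge x 0 ∈ A
  · by_cases h1 : edge x 1 ∈ A
    · by_cases h2 : edge x 2 ∈ A
      · exact ⟨0, by simp [ok, h0, h1, h2]⟩
      · exact ⟨2, by simp [ok, h2]⟩
    · exact ⟨1, by simp [ok, h1]⟩
  · exact ⟨0, by simp [ok, h0]⟩

lemma AV_one_pos (A : Finset Ed) (x : V) : 0 < AV A x (fun _ => 1) := by
  obtain ⟨d, hd⟩ := ok_exists A x
  unfold AV
  refine sum_pos' (fun d _ => ?_) ⟨d, mem_univ d, ?_⟩
  · split_ifs <;> norm_num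
  · simp [hd]

/-! ### Blocks -/

/-- The edges of block `b`, whose columns are `2 b + 1` and `2 b + 2`. -/
def ed (b : ℕ) : ℕ → Ed
  | 0 => .hor (2 * b) 0
  | 1 => .hor (2 * b) 1
  | 2 => .hor (2 * b + 1) 0
  | 3 => .hor (2 * b + 1) 1
  | 4 => .hor (2 * b + 2) 0
  | 5 => .hor (2 * b + 2) 1
  | 6 => .rung (2 * b + 1)
  | _ => .rung (2 * b + 2)

/-- The binary code of the set of visited edges of block `b`. -/
def code (A : Finset Ed) (b : ℕ) : ℕ := Nat.ofBits (fun j : Fin 8 => decide (ed b j ∈ A))

/-- The position relative to block `b`. -/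
def pos (b : ℕ) (x : V) : ℕ :=
  if x.1 ≤ 2 * b then 0 else if x.1 = 2 * b + 1 then 1 + x.2.val
    else if x.1 = 2 * b + 2 then 3 + x.2.val else 5

/-- The potential of block `b`. -/
def Phi (A : Finset Ed) (x : V) (b : ℕ) : ℕ := T (code A b) (pos b x)

lemma code_lt (A : Finset Ed) (b : ℕ) : code A b < 256 := Nat.ofBits_lt_two_pow _

lemma testBit_code (A : Finset Ed) (b : ℕ) {j : ℕ} (hj : j < 8) :
    (code A b).testBit j = decide (ed b j ∈ A) := by
  unfold code
  rw [Nat.testBit_ofBits_lt _ _ hj]

lemma ed_inj (b : ℕ) {j k : ℕ} (hj : j < 8) (hk : k < 8) (h : ed b j = ed b k) : j = k := by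
  interval_cases j <;> interval_cases k <;> simp_all [ed]

lemma code_insert (A : Finset Ed) (b : ℕ) {j : ℕ} (hj : j < 8) :
    code (insert (ed b j) A) b = code A b ||| 2 ^ j := by
  apply Nat.eq_of_testBit_eq
  intro i
  rw [Nat.testBit_or, Nat.testBit_two_pow]
  by_cases hi : i < 8
  · rw [testBit_code _ _ hi, testBit_code _ _ hi]
    by_cases h : j = i
    · subst h; simp
    · have : ed b i ≠ ed b j := fun h1 => h (ed_inj b hj hi h1.symm)
      simp [h, this]
  · have h1 : (code (insert (ed b j) A) b).testBit i = false := by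
      unfold code; exact Nat.testBit_ofBits_ge _ _ (by omega)
    have h2 : (code A b).testBit i = false := by
      unfold code; exact Nat.testBit_ofBits_ge _ _ (by omega)
    have h3 : j ≠ i := by omega
    simp [h1, h2, h3]

lemma code_insert_ne (A : Finset Ed) (b : ℕ) (e : Ed) (h : ∀ j < 8, ed b j ≠ e) :
    code (insert e A) b = code A b := by
  unfold code
  congr 1
  funext j
  have := h j.1 j.2
  simp [this]

lemma row (i : ZMod 2) : i = 0 ∨ i = 1 := by
  revert i; decide

lemma one_add_one : (1 : ZMod 2) + 1 = 0 := by decide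

lemma zero_add_one : (0 : ZMod 2) + 1 = 1 := by decide

lemma val_one' : (1 : ZMod 2).val = 1 := by decide

lemma Phi_out (A : Finset Ed) (x : V) (b : ℕ) (d : Fin 3)
    (h : x.1 ≤ 2 * b ∨ 2 * b + 3 ≤ x.1) :
    Phi (insert (edge x d) A) (move x d) b ≤ Phi A x b := by
  obtain ⟨n, i⟩ := x
  simp only at h
  have hco := checkOut_all (code A b) (code_lt A b)
  simp only [checkOut, Bool.and_eq_true, decide_eq_true_eq] at hco
  obtain ⟨⟨⟨hc1, hc2⟩, hc3⟩, hc4⟩ := hco
  by_cases h1 : n = 2 * b ∧ d = 1
  · obtain ⟨rfl, rfl⟩ := h1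
    rcases row i with rfl | rfl
    · have e1 : edge ((2 * b : ℤ), (0 : ZMod 2)) 1 = ed b 0 := rfl
      have e2 : pos b (move ((2 * b : ℤ), (0 : ZMod 2)) 1) = 1 := by simp [pos, move]
      have e3 : pos b ((2 * b : ℤ), (0 : ZMod 2)) = 0 := by simp [pos]
      unfold Phi
      rw [e1, e2, e3, code_insert A b (by norm_num)]
      exact hc1
    · have e1 : edge ((2 * b : ℤ), (1 : ZMod 2)) 1 = ed b 1 := rfl
      have e2 : pos b (move ((2 * b : ℤ), (1 : ZMod 2)) 1) = 2 := by simp [pos, move, val_one']
      have e3 : pos b ((2 * b : ℤ), (1 : ZMod 2)) = 0 := by simp [pos]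
      unfold Phi
      rw [e1, e2, e3, code_insert A b (by norm_num)]
      exact hc2
  by_cases h2 : n = 2 * b + 3 ∧ d = 0
  · obtain ⟨rfl, rfl⟩ := h2
    rcases row i with rfl | rfl
    · have e1 : edge ((2 * b + 3 : ℤ), (0 : ZMod 2)) 0 = ed b 4 := by
        show Ed.hor _ _ = Ed.hor _ _
        congr 1
        ring
      have e2 : pos b (move ((2 * b + 3 : ℤ), (0 : ZMod 2)) 0) = 3 := by
        simp only [pos, move, ZMod.val_zero]
        rw [if_neg (by omega), if_neg (by omega), if_pos (by omega)]
      have e3 : pos b ((2 * b + 3 : ℤ), (0 : ZMod 2)) = 5 := by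
        simp only [pos]
        rw [if_neg (by omega), if_neg (by omega), if_neg (by omega)]
      unfold Phi
      rw [e1, e2, e3, code_insert A b (by norm_num)]
      exact hc3
    · have e1 : edge ((2 * b + 3 : ℤ), (1 : ZMod 2)) 0 = ed b 5 := by
        show Ed.hor _ _ = Ed.hor _ _
        congr 1
        ring
      have e2 : pos b (move ((2 * b + 3 : ℤ), (1 : ZMod 2)) 0) = 4 := by
        simp only [pos, move, val_one']
        rw [if_neg (by omega), if_neg (by omega), if_pos (by omega)]
      have e3 : pos b ((2 * b + 3 : ℤ), (1 : ZMod 2)) = 5 := by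
        simp only [pos]
        rw [if_neg (by omega), if_neg (by omega), if_neg (by omega)]
      unfold Phi
      rw [e1, e2, e3, code_insert A b (by norm_num)]
      exact hc4
  · have e1 : code (insert (edge (n, i) d) A) b = code A b := by
      refine code_insert_ne A b _ ?_
      intro j hj
      fin_cases d
      · show ed b j ≠ Ed.hor (n - 1) i
        interval_cases j <;> simp only [ed, ne_eq, Ed.hor.injEq, reduceCtorEq, not_false_eq_true] <;>
          (intro h3; simp at h2; omega)
      · show ed b j ≠ Ed.hor n i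
        interval_cases j <;> simp only [ed, ne_eq, Ed.hor.injEq, reduceCtorEq, not_false_eq_true] <;>
          (intro h3; simp at h1; omega)
      · show ed b j ≠ Ed.rung n
        interval_cases j <;> simp only [ed, ne_eq, Ed.rung.injEq, reduceCtorEq,
          not_false_eq_true] <;> (intro h3; omega)
    have e2 : pos b (move (n, i) d) = pos b (n, i) := by
      fin_cases d
      · simp only [pos, move]
        simp at h2
        rcases h with h | h
        · rw [if_pos (by omega), if_pos (by omega)]
        · rw [if_neg (by omega), if_neg (by omega), if_neg (by omega), if_neg (by omega),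
            if_neg (by omega), if_neg (by omega)]
      · simp only [pos, move]
        simp at h1
        rcases h with h | h
        · rw [if_pos (by omega), if_pos (by omega)]
        · rw [if_neg (by omega), if_neg (by omega), if_neg (by omega), if_neg (by omega),
            if_neg (by omega), if_neg (by omega)]
      · simp only [pos, move]
        rcases h with h | h
        · rw [if_pos (by omega), if_pos (by omega)]
        · rw [if_neg (by omega), if_neg (by omega), if_neg (by omega), if_neg (by omega),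
            if_neg (by omega), if_neg (by omega)]
    unfold Phi
    rw [e1, e2]

/-- The inequality inside a block, in an abstract form. -/
lemma Phi_in_aux (A : Finset Ed) (x : V) (b p : ℕ) (hp : p = 1 ∨ p = 2 ∨ p = 3 ∨ p = 4)
    (hpos : pos b x = p) (he : ∀ d : Fin 3, edge x d = ed b (ej p d))
    (hj : ∀ d : Fin 3, ej p d < 8) (hn : ∀ d : Fin 3, pos b (move x d) = np p d) :
    AV A x (fun d => (Phi (insert (edge x d) A) (move x d) b : ℝ) + 15 * ((move x d).1 - x.1)) ≤
      AV A x (fun _ => 1) * (Phi A x b : ℝ) := by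
  have hci : checkIn (code A b) p = true := by
    have := checkIn_all (code A b) (code_lt A b)
    simp only [Bool.and_eq_true] at this
    rcases hp with rfl | rfl | rfl | rfl
    · exact this.1.1.1
    · exact this.1.1.2
    · exact this.1.2
    · exact this.2
  have hok : ∀ d : Fin 3, ok A x d = okT (code A b) p d := by
    intro d
    unfold ok okT
    rw [testBit_code A b (hj d), ← he d]
    have h0 := testBit_code A b (hj 0)
    have h1 := testBit_code A b (hj 1)
    have h2 := testBit_code A b (hj 2)
    rw [← he 0] at h0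
    rw [← he 1] at h1
    rw [← he 2] at h2
    have e0 : ej p ((0 : Fin 3) : ℕ) = ej p 0 := rfl
    have e1 : ej p ((1 : Fin 3) : ℕ) = ej p 1 := rfl
    have e2 : ej p ((2 : Fin 3) : ℕ) = ej p 2 := rfl
    rw [e0] at h0
    rw [e1] at h1
    rw [e2] at h2
    rw [h0, h1, h2]
  have hPhi : ∀ d : Fin 3, Phi (insert (edge x d) A) (move x d) b =
      T (code A b ||| 2 ^ ej p d) (np p d) := by
    intro d
    unfold Phi
    rw [hn d, he d, code_insert A b (hj d)]
  have hP0 : Phi A x b = T (code A b) p := by
    unfold Phi; rw [hpos]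
  unfold AV
  simp only [Fin.sum_univ_three, hPhi, hP0, hok]
  unfold checkIn at hci
  rw [decide_eq_true_eq] at hci
  have hci' : ((b1 (okT (code A b) p 0) * T (code A b ||| 2 ^ ej p 0) (np p 0) +
    b1 (okT (code A b) p 1) * (T (code A b ||| 2 ^ ej p 1) (np p 1) + 15) +
    b1 (okT (code A b) p 2) * T (code A b ||| 2 ^ ej p 2) (np p 2) : ℕ) : ℝ) ≤
    (((b1 (okT (code A b) p 0) + b1 (okT (code A b) p 1) + b1 (okT (code A b) p 2)) *
      T (code A b) p + 15 * b1 (okT (code A b) p 0) : ℕ) : ℝ) := by exact_mod_cast hci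
  push_cast at hci'
  have m0 : ((move x 0).1 : ℝ) - x.1 = -1 := by simp [move]
  have m1 : ((move x 1).1 : ℝ) - x.1 = 1 := by simp [move]
  have m2 : ((move x 2).1 : ℝ) - x.1 = 0 := by simp [move]
  rw [m0, m1, m2]
  simp only [Fin.val_zero, Fin.val_one, Fin.val_two]
  unfold b1 at hci'
  by_cases h0 : okT (code A b) p 0 = true <;> by_cases h1 : okT (code A b) p 1 = true <;>
    by_cases h2 : okT (code A b) p 2 = true <;>
    simp only [h0, h1, h2, if_true, if_false, Bool.false_eq_true, Nat.cast_zero, Nat.cast_one]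
      at hci' ⊢ <;> linarith

lemma Phi_in (A : Finset Ed) (x : V) (b : ℕ) (h : x.1 = 2 * b + 1 ∨ x.1 = 2 * b + 2) :
    AV A x (fun d => (Phi (insert (edge x d) A) (move x d) b : ℝ) + 15 * ((move x d).1 - x.1)) ≤
      AV A x (fun _ => 1) * (Phi A x b : ℝ) := by
  obtain ⟨n, i⟩ := x
  simp only at h
  have key : ∀ d : Fin 3, d = 0 ∨ d = 1 ∨ d = 2 := by decide
  rcases h with rfl | rfl <;> rcases row i with rfl | rfl
  · refine Phi_in_aux A _ b 1 (by simp) (by simp [pos]) ?_ ?_ ?_
    · intro d
      rcases key d with rfl | rfl | rfl <;> simp [edge, ej, ed]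
    · intro d
      rcases key d with rfl | rfl | rfl <;> simp [ej]
    · intro d
      rcases key d with rfl | rfl | rfl <;> simp [pos, move, np, zero_add_one, val_one'] <;> omega
  · refine Phi_in_aux A _ b 2 (by simp) (by simp [pos, val_one']) ?_ ?_ ?_
    · intro d
      rcases key d with rfl | rfl | rfl <;> simp [edge, ej, ed]
    · intro d
      rcases key d with rfl | rfl | rfl <;> simp [ej]
    · intro d
      rcases key d with rfl | rfl | rfl <;> simp [pos, move, np, one_add_one, val_one'] <;> omega
  · refine Phi_in_aux A _ b 3 (by simp) (by simp [pos]) ?_ ?_ ?_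
    · intro d
      rcases key d with rfl | rfl | rfl <;> simp [edge, ej, ed]
      all_goals ring
    · intro d
      rcases key d with rfl | rfl | rfl <;> simp [ej]
    · intro d
      rcases key d with rfl | rfl | rfl <;> simp [pos, move, np, zero_add_one, val_one'] <;> omega
  · refine Phi_in_aux A _ b 4 (by simp) (by simp [pos, val_one']) ?_ ?_ ?_
    · intro d
      rcases key d with rfl | rfl | rfl <;> simp [edge, ej, ed]
      all_goals ring
    · intro d
      rcases key d with rfl | rfl | rfl <;> simp [ej]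
    · intro d
      rcases key d with rfl | rfl | rfl <;> simp [pos, move, np, one_add_one, val_one'] <;> omega

end R766.GL
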